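import Pool.Agent.W_a4f561_h1.Def

/-!
MP_a4f561_co, polylog (helper1's text, section 3 (d)): adding the labels of one side, basic facts about `MS.add` (helper2).
-/

set_option autoImplicit false

namespace Pool.Agent.W_a4f561_P2

open Pool.Agent.W_a4f561_h26 Pool.Agent.W_a4f561_P73 Pool.Agent.W_a4f561_P45 Pool.Agent.W_a4f561_h1

variable {V : Type}

/-- What is needed of the labels and of the new sets. -/
structure AdB (Y : MS V) (i0 q : ℕ) (F : ℕ → Set V) : Prop where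
  par0 : Y.par 0 = 0
  par_lt : ∀ i, 1 ≤ i → Y.par i < i
  dflt : ∀ i, Y.nl ≤ i → Y.par i = 0
  nl_pos : 1 ≤ Y.nl
  cell_lt : ∀ v, Y.cell v < Y.nl
  i0_lt : i0 < Y.nl
  sub : ∀ l, l < q → F l ⊆ Y.D i0
  dis : ∀ l l', l < q → l' < q → l ≠ l' → ∀ u ∈ F l, u ∉ F l'

section basic

variable {Y : MS V} {k : ℕ} {b : Bool} {i0 ρ q : ℕ} {F : ℕ → Set V} {s e : ℕ → ℕ} {evn : Bool → V → V → Prop}

theorem cell_mem (h : AdB Y i0 q F) {l : ℕ} (hl : l < q) {u : V} (hu : u ∈ F l) :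
    (Y.add k b i0 ρ q F s e evn).cell u = Y.nl + l := by
  classical
  have hex : ∃ l, l < q ∧ u ∈ F l := ⟨l, hl, hu⟩
  have h1 : hex.choose = l := by
    by_contra hne
    exact h.dis _ _ hex.choose_spec.1 hl hne u hex.choose_spec.2 hu
  show (if h : ∃ l, l < q ∧ u ∈ F l then Y.nl + h.choose else Y.cell u) = Y.nl + l
  rw [dif_pos hex, h1]

theorem cell_not {u : V} (hu : ∀ l, l < q → u ∉ F l) : (Y.add k b i0 ρ q F s e evn).cell u = Y.cell u := by
  classical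
  show (if h : ∃ l, l < q ∧ u ∈ F l then Y.nl + h.choose else Y.cell u) = Y.cell u
  rw [dif_neg]
  rintro ⟨l, h1, h2⟩
  exact hu l h1 h2

theorem par_new {l : ℕ} (hl : l < q) : (Y.add k b i0 ρ q F s e evn).par (Y.nl + l) = i0 := if_pos ⟨by omega, by omega⟩

theorem par_old {i : ℕ} (hi : i < Y.nl ∨ Y.nl + q ≤ i) : (Y.add k b i0 ρ q F s e evn).par i = Y.par i :=
  if_neg (by omega)

theorem s_new {l : ℕ} (hl : l < q) : (Y.add k b i0 ρ q F s e evn).s (Y.nl + l) = s l := by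
  show (if Y.nl ≤ Y.nl + l ∧ Y.nl + l < Y.nl + q then s (Y.nl + l - Y.nl) else _) = _
  rw [if_pos ⟨by omega, by omega⟩, Nat.add_sub_cancel_left]

theorem s_old {i : ℕ} (hi : i < Y.nl ∨ Y.nl + q ≤ i) : (Y.add k b i0 ρ q F s e evn).s i = Y.s i := if_neg (by omega)

theorem e_new {l : ℕ} (hl : l < q) : (Y.add k b i0 ρ q F s e evn).e (Y.nl + l) = e l := by
  show (if Y.nl ≤ Y.nl + l ∧ Y.nl + l < Y.nl + q then e (Y.nl + l - Y.nl) else _) = _
  rw [if_pos ⟨by omega, by omega⟩, Nat.add_sub_cancel_left]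

theorem e_old {i : ℕ} (hi : i < Y.nl ∨ Y.nl + q ≤ i) : (Y.add k b i0 ρ q F s e evn).e i = Y.e i := if_neg (by omega)

theorem rk_new {l : ℕ} (hl : l < q) : (Y.add k b i0 ρ q F s e evn).rk (Y.nl + l) = ρ := if_pos ⟨by omega, by omega⟩

theorem rk_old {i : ℕ} (hi : i < Y.nl ∨ Y.nl + q ≤ i) : (Y.add k b i0 ρ q F s e evn).rk i = Y.rk i := if_neg (by omega)

theorem ph_new {l : ℕ} (hl : l < q) : (Y.add k b i0 ρ q F s e evn).ph (Y.nl + l) = k := if_pos ⟨by omega, by omega⟩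

theorem ph_old {i : ℕ} (hi : i < Y.nl ∨ Y.nl + q ≤ i) : (Y.add k b i0 ρ q F s e evn).ph i = Y.ph i := if_neg (by omega)

theorem sd_new {l : ℕ} (hl : l < q) : (Y.add k b i0 ρ q F s e evn).sd (Y.nl + l) = b := if_pos ⟨by omega, by omega⟩

theorem sd_old {i : ℕ} (hi : i < Y.nl ∨ Y.nl + q ≤ i) : (Y.add k b i0 ρ q F s e evn).sd i = Y.sd i := if_neg (by omega)

theorem cls_new {l : ℕ} (hl : l < q) : (Y.add k b i0 ρ q F s e evn).cls (Y.nl + l) = (k, b) := by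
  show ((Y.add k b i0 ρ q F s e evn).ph (Y.nl + l), (Y.add k b i0 ρ q F s e evn).sd (Y.nl + l)) = (k, b)
  rw [ph_new hl, sd_new hl]

theorem cls_old {i : ℕ} (hi : i < Y.nl ∨ Y.nl + q ≤ i) : (Y.add k b i0 ρ q F s e evn).cls i = Y.cls i := by
  show ((Y.add k b i0 ρ q F s e evn).ph i, (Y.add k b i0 ρ q F s e evn).sd i) = (Y.ph i, Y.sd i)
  rw [ph_old hi, sd_old hi]

/-- An index is old or new. -/
theorem idx (Y : MS V) (q i : ℕ) : (i < Y.nl ∨ Y.nl + q ≤ i) ∨ ∃ l, l < q ∧ i = Y.nl + l := by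
  by_cases h : i < Y.nl ∨ Y.nl + q ≤ i
  · exact Or.inl h
  · push Not at h
    exact Or.inr ⟨i - Y.nl, by omega, by omega⟩

theorem par_le (h : AdB Y i0 q F) (i : ℕ) : Y.par i ≤ i := by
  rcases Nat.eq_zero_or_pos i with rfl | h1
  · rw [h.par0]
  · exact (h.par_lt i h1).le

/-- Ancestors of old labels. -/
theorem anc_old (h : AdB Y i0 q F) {i j : ℕ} (hj : j < Y.nl) :
    Anc (Y.add k b i0 ρ q F s e evn).par i j ↔ Anc Y.par i j := by
  have key : ∀ n : ℕ, ∀ j, j < Y.nl → (Y.add k b i0 ρ q F s e evn).par^[n] j = Y.par^[n] j := by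
    intro n
    induction n with
    | zero => intro j _; rfl
    | succ n ih =>
      intro j hj
      rw [Function.iterate_succ_apply, Function.iterate_succ_apply, par_old (Or.inl hj)]
      exact ih _ ((par_le h j).trans_lt hj)
  constructor
  · rintro ⟨n, hn⟩
    exact ⟨n, by rw [← key n j hj, hn]⟩
  · rintro ⟨n, hn⟩
    exact ⟨n, by rw [key n j hj, hn]⟩

theorem anc_lt (h : AdB Y i0 q F) {i j : ℕ} (ha : Anc Y.par i j) : i ≤ j := by
  obtain ⟨n, rfl⟩ := ha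
  induction n generalizing j with
  | zero => exact le_rfl
  | succ n ih =>
    rw [Function.iterate_succ_apply]
    exact ih.trans (par_le h j)

/-- Ancestors of new labels. -/
theorem anc_new (h : AdB Y i0 q F) {i l : ℕ} (hl : l < q) :
    Anc (Y.add k b i0 ρ q F s e evn).par i (Y.nl + l) ↔ i = Y.nl + l ∨ Anc Y.par i i0 := by
  rw [anc_iff, par_new hl, anc_old h h.i0_lt]

/-- All ancestors. -/
theorem anc_dfl (h : AdB Y i0 q F) {i j : ℕ} (hj : Y.nl + q ≤ j) :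
    Anc (Y.add k b i0 ρ q F s e evn).par i j ↔ Anc Y.par i j := by
  rw [anc_iff, par_old (Or.inr hj), h.dflt j (by omega), anc_old h (by have := h.nl_pos; omega)]
  rw [anc_iff (par := Y.par) (j := j), h.dflt j (by omega)]

/-- Old ancestors stay ancestors. -/
theorem anc_mono (h : AdB Y i0 q F) {i j : ℕ} (hj : j < Y.nl ∨ Y.nl + q ≤ j) :
    Anc (Y.add k b i0 ρ q F s e evn).par i j ↔ Anc Y.par i j := by
  rcases hj with hj | hj
  · exact anc_old h hj
  · exact anc_dfl h hj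

theorem C_iff (h : AdB Y i0 q F) {i : ℕ} {v : V} :
    v ∈ (Y.add k b i0 ρ q F s e evn).C i ↔ v ∈ Y.C i ∨ ∃ l, l < q ∧ i = Y.nl + l ∧ v ∈ F l := by
  show Anc (Y.add k b i0 ρ q F s e evn).par i ((Y.add k b i0 ρ q F s e evn).cell v) ↔ Anc Y.par i (Y.cell v) ∨ _
  by_cases hv : ∃ l, l < q ∧ v ∈ F l
  · obtain ⟨l, hl, hvl⟩ := hv
    have h1 : Y.cell v = i0 := (h.sub l hl hvl).2
    rw [cell_mem h hl hvl, anc_new h hl, h1]
    constructor
    · rintro (h2 | h2)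
      · exact Or.inr ⟨l, hl, h2, hvl⟩
      · exact Or.inl h2
    · rintro (h2 | ⟨l', h2, h3, h4⟩)
      · exact Or.inr h2
      · by_cases h5 : l' = l
        · exact Or.inl (by rw [h3, h5])
        · exact absurd hvl (h.dis l' l h2 hl h5 v h4)
  · push Not at hv
    rw [cell_not hv, anc_old h (h.cell_lt v)]
    constructor
    · exact Or.inl
    · rintro (h2 | ⟨l', h2, h3, h4⟩)
      · exact h2
      · exact absurd h4 (hv l' h2)

/-- The sets of old labels do not change. -/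
theorem C_old (h : AdB Y i0 q F) {i : ℕ} (hi : i < Y.nl ∨ Y.nl + q ≤ i) :
    (Y.add k b i0 ρ q F s e evn).C i = Y.C i := by
  ext v
  rw [C_iff h]
  constructor
  · rintro (h1 | ⟨l, h1, h2, _⟩)
    · exact h1
    · omega
  · exact Or.inl

/-- The set of a new label. -/
theorem C_new (h : AdB Y i0 q F) {l : ℕ} (hl : l < q) : (Y.add k b i0 ρ q F s e evn).C (Y.nl + l) = F l := by
  ext v
  rw [C_iff h]
  constructor
  · rintro (h1 | ⟨l', h1, h2, h3⟩)
    · have h2 := anc_lt h h1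
      have h3 := h.cell_lt v
      omega
    · have h4 : l' = l := by omega
      rwa [h4] at h3
  · intro h1
    exact Or.inr ⟨l, hl, rfl, h1⟩

theorem D_iff (h : AdB Y i0 q F) {i : ℕ} {v : V} :
    v ∈ (Y.add k b i0 ρ q F s e evn).D i ↔ (v ∈ Y.D i ∧ ∀ l, l < q → v ∉ F l) ∨
      ∃ l, l < q ∧ i = Y.nl + l ∧ v ∈ F l := by
  show (v ∉ Y.σ.S ∧ (Y.add k b i0 ρ q F s e evn).cell v = i) ↔ _
  by_cases hv : ∃ l, l < q ∧ v ∈ F l
  · obtain ⟨l, hl, hvl⟩ := hv
    rw [cell_mem h hl hvl]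
    constructor
    · rintro ⟨_, h2⟩
      exact Or.inr ⟨l, hl, h2.symm, hvl⟩
    · rintro (⟨_, h2⟩ | ⟨l', h2, h3, h4⟩)
      · exact absurd hvl (h2 l hl)
      · refine ⟨(h.sub l hl hvl).1, ?_⟩
        by_cases h5 : l' = l
        · rw [h3, h5]
        · exact absurd hvl (h.dis l' l h2 hl h5 v h4)
  · push Not at hv
    rw [cell_not hv]
    constructor
    · intro h1
      exact Or.inl ⟨h1, hv⟩
    · rintro (⟨h2, _⟩ | ⟨l', h2, h3, h4⟩)
      · exact h2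
      · exact absurd h4 (hv l' h2)

/-- The cell of a new label. -/
theorem D_new (h : AdB Y i0 q F) {l : ℕ} (hl : l < q) : (Y.add k b i0 ρ q F s e evn).D (Y.nl + l) = F l := by
  ext v
  rw [D_iff h]
  constructor
  · rintro (⟨h1, _⟩ | ⟨l', h1, h2, h3⟩)
    · have h2 : Y.cell v = Y.nl + l := h1.2
      have h3 := h.cell_lt v
      omega
    · have h4 : l' = l := by omega
      rwa [h4] at h3
  · intro h1
    exact Or.inr ⟨l, hl, rfl, h1⟩

/-- The parent cell loses the new sets. -/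
theorem D_par (h : AdB Y i0 q F) :
    (Y.add k b i0 ρ q F s e evn).D i0 = Y.D i0 \ {v | ∃ l, l < q ∧ v ∈ F l} := by
  ext v
  rw [D_iff h]
  constructor
  · rintro (⟨h1, h2⟩ | ⟨l', h1, h2, h3⟩)
    · exact ⟨h1, fun ⟨l, h3, h4⟩ => h2 l h3 h4⟩
    · have := h.i0_lt
      omega
  · rintro ⟨h1, h2⟩
    exact Or.inl ⟨h1, fun l h3 h4 => h2 ⟨l, h3, h4⟩⟩

/-- The other old cells do not change. -/
theorem D_old (h : AdB Y i0 q F) {i : ℕ} (hi : i < Y.nl ∨ Y.nl + q ≤ i) (hi0 : i ≠ i0) :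
    (Y.add k b i0 ρ q F s e evn).D i = Y.D i := by
  ext v
  rw [D_iff h]
  constructor
  · rintro (⟨h1, _⟩ | ⟨l', h1, h2, _⟩)
    · exact h1
    · omega
  · intro h1
    refine Or.inl ⟨h1, fun l h2 h3 => ?_⟩
    have h4 : Y.cell v = i0 := (h.sub l h2 h3).2
    have h5 : Y.cell v = i := h1.2
    omega

theorem D_sub (h : AdB Y i0 q F) {i : ℕ} (hi : i < Y.nl ∨ Y.nl + q ≤ i) :
    (Y.add k b i0 ρ q F s e evn).D i ⊆ Y.D i := by
  intro v hv
  rw [D_iff h] at hv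
  rcases hv with ⟨h1, _⟩ | ⟨l', h1, h2, _⟩
  · exact h1
  · omega

theorem P_add (G : Bars V) (j : ℕ) : (Y.add k b i0 ρ q F s e evn).P G j = Y.P G j := rfl

theorem bd_old {G : Bars V} {i : ℕ} (hi : i < Y.nl ∨ Y.nl + q ≤ i) :
    (Y.add k b i0 ρ q F s e evn).bd G i = Y.bd G i := by
  unfold MS.bd
  rw [ph_old hi, e_old hi]
  rfl

theorem bd_new {G : Bars V} {l : ℕ} (hl : l < q) :
    (Y.add k b i0 ρ q F s e evn).bd G (Y.nl + l) = {v | v ∈ Y.P G k ∧ G.t v ≤ e l} := by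
  unfold MS.bd
  rw [ph_new hl, e_new hl]
  rfl

theorem Ex_old (h : AdB Y i0 q F) {G : Bars V} {i : ℕ} (hi : i < Y.nl) :
    (Y.add k b i0 ρ q F s e evn).Ex G i = Y.Ex G i := by
  ext v
  show (v ∈ (Y.add k b i0 ρ q F s e evn).bd G i ∨ ∃ j, 1 ≤ j ∧ j < i ∧
    (Y.add k b i0 ρ q F s e evn).cls j = (Y.add k b i0 ρ q F s e evn).cls i ∧ v ∈ (Y.add k b i0 ρ q F s e evn).C j) ↔
    (v ∈ Y.bd G i ∨ ∃ j, 1 ≤ j ∧ j < i ∧ Y.cls j = Y.cls i ∧ v ∈ Y.C j)
  rw [bd_old (Or.inl hi)]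
  refine or_congr Iff.rfl (exists_congr fun j => and_congr_right fun h1 => and_congr_right fun h2 => ?_)
  rw [cls_old (Or.inl (h2.trans hi)), cls_old (Or.inl hi), C_old h (Or.inl (h2.trans hi))]

/-- Exits of a new label: the phase up to the deadline and the earlier new labels. -/
theorem Ex_new (h : AdB Y i0 q F) {G : Bars V} {l : ℕ} (hl : l < q) {v : V}
    (hv : (v ∈ Y.P G k ∧ G.t v ≤ e l) ∨ ∃ l' < l, v ∈ F l') : v ∈ (Y.add k b i0 ρ q F s e evn).Ex G (Y.nl + l) := by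
  rcases hv with h1 | ⟨l', h1, h2⟩
  · left
    rw [bd_new hl]
    exact h1
  · right
    have h3 : l' < q := h1.trans hl
    refine ⟨Y.nl + l', by have := h.nl_pos; omega, by omega, by rw [cls_new h3, cls_new hl], ?_⟩
    show v ∈ (Y.add k b i0 ρ q F s e evn).C (Y.nl + l')
    rw [C_new h h3]
    exact h2

/-- Exits of the old cells survive; the vertices which leave the cell become exits. -/
theorem E_old (h : AdB Y i0 q F) {G : Bars V} {i : ℕ} (hi : i < Y.nl) :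
    Y.E G i ⊆ (Y.add k b i0 ρ q F s e evn).E G i ∧
      ∀ v ∈ Y.D i, v ∉ (Y.add k b i0 ρ q F s e evn).D i → v ∈ (Y.add k b i0 ρ q F s e evn).E G i := by
  constructor
  · rintro v ⟨h1, h2⟩
    refine ⟨?_, fun h3 => h2 (D_sub h (Or.inl hi) h3)⟩
    rw [C_old h (Or.inl hi), Ex_old h hi]
    exact h1
  · intro v h1 h2
    refine ⟨Or.inl ?_, h2⟩
    rw [C_old h (Or.inl hi)]
    show Anc Y.par i (Y.cell v)
    rw [h1.2]
    exact anc_refl _ _

end basic

end Pool.Agent.W_a4f561_P2
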