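import Pool.Agent.W_a4f561_P2.AddB
import Pool.Agent.W_a4f561_P66.Add66

/-!
MP_a4f561_co, polylog (helper1's text, section 3 (d)): the invariants after adding the labels of one side (helper2).
-/

set_option autoImplicit false

namespace Pool.Agent.W_a4f561_P2

open Pool.Agent.W_a4f561_h26 Pool.Agent.W_a4f561_P73 Pool.Agent.W_a4f561_P45 Pool.Agent.W_a4f561_P8
open Pool.Agent.W_a4f561_P16 Pool.Agent.W_a4f561_h1

variable {V : Type} {G : Bars V}

/-- A route which leaves `D` in `E` leaves a smaller set `D'` in `E'`, if `E'` contains `E` and `D - D'`. -/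
theorem lv_shrink {D D' E E' : Set V} {π : V → V} {x : V} (h : LV G D E π x) (h1 : D' ⊆ D) (h2 : E ⊆ E')
    (h3 : ∀ v ∈ D, v ∉ D' → v ∈ E') : LV G D' E' π x := by
  classical
  obtain ⟨w, hw, hwD, how, hbe⟩ := h
  have hex : ∃ n, ∃ v, Orb π x v ∧ v ∉ D' ∧ G.t v = n := ⟨_, w, how, fun h4 => hwD (h1 h4), rfl⟩
  obtain ⟨v, k1, k2, k3⟩ := Nat.find_spec hex
  have hmin : ∀ u, Orb π x u → u ∉ D' → G.t v ≤ G.t u := by
    intro u l1 l2
    rw [k3]
    exact Nat.find_min' hex ⟨u, l1, l2, rfl⟩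
  have hvw : G.t v ≤ G.t w := hmin w how fun h4 => hwD (h1 h4)
  refine ⟨v, ?_, k2, k1, fun u l1 l2 => ?_⟩
  · rcases hvw.eq_or_lt with h4 | h4
    · rw [G.t_inj h4]
      exact h2 hw
    · exact h3 v (hbe v k1 h4) k2
  · by_contra h4
    have := hmin u l1 h4
    omega

section pr

variable [Fintype V] [DecidableEq V]

theorem pr_mono2 {A B : (V × Bool → Bool) → Prop} (h : ∀ ω, A ω → B ω) :
    pr (fun _ => none) A ≤ pr (fun _ => none) B := by
  classical
  unfold pr
  apply div_le_div_of_nonneg_right _ (by positivity)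
  exact_mod_cast Finset.card_le_card (fun ω hω => by
    rw [Finset.mem_filter] at hω ⊢
    exact ⟨hω.1, h _ hω.2⟩)

theorem adB {rnk : V → ℕ} {N k0 i0 M q : ℕ} {Y : MS V} {c : V} {F : ℕ → Set V} {s e : ℕ → ℕ} {B : Set V} {κ : ℝ}
    (hW : WI G rnk N k0 Y c) (hi0 : i0 < Y.nl) (hF : Fam G Y.σ (Y.D i0) B κ M q F s e) : AdB Y i0 q F where
  par0 := hW.lab.par0
  par_lt := hW.par_lt
  dflt := fun i hi => (hW.dflt i hi).1
  nl_pos := hW.nl_pos
  cell_lt := hW.cell_lt
  i0_lt := hi0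
  sub := hF.sub
  dis := hF.dis

/-- (5) all the invariants after adding the labels of one side; `hpath` = `fam_path`, `hrest` = `lens_rest`. -/
theorem add_WI' {rnk : V → ℕ} {N : ℕ} {Y : MS V} {c r : V} {b : Bool} {κ : ℝ} {q : ℕ} {F : ℕ → Set V} {s e : ℕ → ℕ}
    {evn : Bool → V → V → Prop} (hW : WI G rnk N Y.np Y c) (hnp : 1 ≤ Y.np) (hr : Y.rt Y.np = r)
    (hrk : Y.rk (Y.lc Y.np) ≤ rnk r) (hcl : ∀ i, 1 ≤ i → Y.cls i ≠ (Y.np, b))
    (hκ : kap (Fintype.card V) (rnk r + 1) ≤ κ)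
    (hF : Fam G Y.σ (Y.D (Y.lc Y.np)) (Y.P G Y.np) κ (2 * N + 2) q F s e)
    (hev : ∀ kd v w, evn kd v w → v ∈ Y.P G Y.np ∧ (sG G b).lo v ∈ Y.P G Y.np ∧ Y.σ.pi v = (sG G b).lo v ∧
      w ∈ Y.P G Y.np ∧ G.t v < G.t w)
    (hhd : ∀ kd v w, evn kd v w → ∀ y, Hd (sG G b) kd v y →
      (y ∈ Y.P G Y.np ∧ G.t y ≤ G.t w) ∨ ∃ l, l < q ∧ e l ≤ G.t w ∧ y ∈ F l)
    (hlo : ∀ v ∈ Low G rnk Y.σ.pi (rnk r), v ∈ Y.σ.S)
    (hpath : ∀ l, l < q → ∀ u ∈ F l, ∃ π, Ch G π ∧ ∃ w ∈ Y.P G Y.np, Orb π u w ∧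
      ∀ v, Orb π u v → G.t v < G.t w → v ∉ Y.σ.S)
    (hrest : LENS G Y.σ (Y.D (Y.lc Y.np) \ {v | ∃ l, l < q ∧ v ∈ F l}) (Y.s (Y.lc Y.np))) :
    WI G rnk N Y.np (Y.add Y.np b (Y.lc Y.np) (rnk r + 1) q F s e evn) c := by
  classical
  have hi0 : Y.lc Y.np < Y.nl := hW.lc_lt Y.np hnp le_rfl
  have hA : AdB Y (Y.lc Y.np) q F := adB hW hi0 hF
  have hcell : ∀ v ∈ Y.σ.S, (Y.add Y.np b (Y.lc Y.np) (rnk r + 1) q F s e evn).cell v = Y.cell v :=
    fun v hv => cell_not fun l hl h => (hF.sub l hl h).1 hv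
  have hold0 : ∀ i, i < Y.nl → i < Y.nl ∨ Y.nl + q ≤ i := fun i hi => Or.inl hi
  have hmv : ∀ i i', i < Y.nl → i' < Y.nl → Mv Y.par Y.cls i i' →
      Mv (Y.add Y.np b (Y.lc Y.np) (rnk r + 1) q F s e evn).par (Y.add Y.np b (Y.lc Y.np) (rnk r + 1) q F s e evn).cls
        i i' := by
    rintro i i' h1 h2 (⟨h3, h4⟩ | ⟨j, h3, h4, h5, h6⟩)
    · exact Or.inl ⟨(anc_old hA h2).2 h3, h4⟩
    · refine Or.inr ⟨j, h3, h4, ?_, (anc_old hA h2).2 h6⟩
      rw [cls_old (Or.inl (h4.trans h1)), cls_old (Or.inl h1)]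
      exact h5
  refine
    { inv := hW.inv
      lab := ?_
      par_lt := ?_
      s0 := ?_
      rk0 := ?_
      dflt := ?_
      nl_pos := ?_
      cell_lt := ?_
      ph_rng := ?_
      lab_par := ?_
      lab_rk := ?_
      lab_e := ?_
      lc_lt := ?_
      phs_rng := hW.phs_rng
      cellS := ?_
      I1 := ?_
      I2 := Pool.Agent.W_a4f561_P66.add_I2 hW hi0 hF
      I3 := ?_
      lens := ?_
      evd := ?_
      cust := Pool.Agent.W_a4f561_P66.add_cust hW hi0 hF hhd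
      own := ?_
      root := hW.root
      rtS := hW.rtS
      win := ?_
      mv := ?_
      cont := hW.cont
      low := hW.low
      wlk := ?_ }
  · -- lab
    refine
      { par0 := ?_
        rk_par := ?_
        rk_cls := ?_
        e_cls := ?_
        opn := ?_ }
    · rw [par_old (Or.inl hW.nl_pos)]
      exact hW.lab.par0
    · intro i hi
      rcases idx Y q i with h1 | ⟨l, hl, rfl⟩
      · rw [par_old h1, rk_old h1]
        have h2 : Y.par i < Y.nl := by
          rcases h1 with h1 | h1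
          · exact (par_le hA i).trans_lt h1
          · rw [(hW.dflt i (by omega)).1]
            exact hW.nl_pos
        rw [rk_old (Or.inl h2)]
        exact hW.lab.rk_par i hi
      · rw [par_new hl, rk_new hl, rk_old (Or.inl hi0)]
        omega
    · intro i j hi hj hij
      rcases idx Y q i with h1 | ⟨l, hl, rfl⟩ <;> rcases idx Y q j with h2 | ⟨l', hl', rfl⟩
      · rw [cls_old h1, cls_old h2] at hij
        rw [rk_old h1, rk_old h2]
        exact hW.lab.rk_cls i j hi hj hij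
      · rw [cls_old h1, cls_new hl'] at hij
        exact absurd hij (hcl i hi)
      · rw [cls_old h2, cls_new hl] at hij
        exact absurd hij.symm (hcl j hj)
      · rw [rk_new hl, rk_new hl']
    · intro i j hj hji hij
      rcases idx Y q i with h1 | ⟨l, hl, rfl⟩ <;> rcases idx Y q j with h2 | ⟨l', hl', rfl⟩
      · rw [cls_old h1, cls_old h2] at hij
        rw [e_old h1, e_old h2]
        exact hW.lab.e_cls i j hj hji hij
      · rw [cls_old h1, cls_new hl'] at hij
        exact absurd hij.symm (hcl i (by omega))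
      · rw [cls_old h2, cls_new hl] at hij
        exact absurd hij (hcl j hj)
      · rw [e_new hl, e_new hl']
        exact hF.mono l' l (by omega) hl
    · intro cc τ P hP
      by_cases hc : cc = (Y.np, b)
      · have h1 : ∀ i ∈ P, ∃ l, l < q ∧ i = Y.nl + l := by
          intro i hi
          obtain ⟨k1, k2, _⟩ := hP i hi
          rcases idx Y q i with h1 | h1
          · rw [cls_old h1, hc] at k2
            exact absurd k2 (hcl i k1)
          · exact h1
        have h2 : (P.image fun i => i - Y.nl).card = P.card := by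
          apply Finset.card_image_of_injOn
          intro i hi j hj hij
          obtain ⟨l, _, rfl⟩ := h1 i hi
          obtain ⟨l', _, rfl⟩ := h1 j hj
          have h3 : Y.nl + l - Y.nl = Y.nl + l' - Y.nl := hij
          have h4 : l = l' := by omega
          rw [h4]
        rw [← h2]
        refine hF.opn τ _ ?_
        intro l hl
        obtain ⟨i, hi, rfl⟩ := Finset.mem_image.1 hl
        obtain ⟨l', hl', rfl⟩ := h1 i hi
        obtain ⟨_, _, k3, k4⟩ := hP _ hi
        rw [s_new hl'] at k3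
        rw [e_new hl'] at k4
        rw [Nat.add_sub_cancel_left]
        exact ⟨hl', k3, k4⟩
      · refine hW.lab.opn cc τ P ?_
        intro i hi
        obtain ⟨k1, k2, k3, k4⟩ := hP i hi
        rcases idx Y q i with h1 | ⟨l, hl, rfl⟩
        · rw [cls_old h1] at k2
          rw [s_old h1] at k3
          rw [e_old h1] at k4
          exact ⟨k1, k2, k3, k4⟩
        · rw [cls_new hl] at k2
          exact absurd k2.symm hc
  · -- par_lt
    intro i hi
    rcases idx Y q i with h1 | ⟨l, hl, rfl⟩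
    · rw [par_old h1]
      exact hW.par_lt i hi
    · rw [par_new hl]
      omega
  · rw [s_old (Or.inl hW.nl_pos)]
    exact hW.s0
  · rw [rk_old (Or.inl hW.nl_pos)]
    exact hW.rk0
  · -- dflt
    intro i hi
    have hi' : Y.nl + q ≤ i := hi
    rw [par_old (Or.inr hi'), ph_old (Or.inr hi'), e_old (Or.inr hi')]
    exact hW.dflt i (by omega)
  · -- nl_pos
    show 1 ≤ Y.nl + q
    have := hW.nl_pos
    omega
  · -- cell_lt
    intro v
    show _ < Y.nl + q
    by_cases hv : ∃ l, l < q ∧ v ∈ F l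
    · obtain ⟨l, hl, hvl⟩ := hv
      rw [cell_mem hA hl hvl]
      omega
    · push Not at hv
      rw [cell_not hv]
      have := hW.cell_lt v
      omega
  · -- ph_rng
    intro i hi hin
    have hin' : i < Y.nl + q := hin
    show 1 ≤ _ ∧ _ ≤ Y.np
    rcases idx Y q i with h1 | ⟨l, hl, rfl⟩
    · rw [ph_old h1]
      exact hW.ph_rng i hi (by omega)
    · rw [ph_new hl]
      exact ⟨hnp, le_rfl⟩
  · -- lab_par
    intro i hi hin
    have hin' : i < Y.nl + q := hin
    show _ = Y.lc _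
    rcases idx Y q i with h1 | ⟨l, hl, rfl⟩
    · rw [ph_old h1, par_old h1]
      exact hW.lab_par i hi (by omega)
    · rw [ph_new hl, par_new hl]
  · -- lab_rk
    intro i hi hin
    have hin' : i < Y.nl + q := hin
    show _ = rnk (Y.rt _) + 1
    rcases idx Y q i with h1 | ⟨l, hl, rfl⟩
    · rw [ph_old h1, rk_old h1]
      exact hW.lab_rk i hi (by omega)
    · rw [ph_new hl, rk_new hl, hr]
  · -- lab_e
    intro i hi hin
    have hin' : i < Y.nl + q := hin
    show ∃ v ∈ Y.P G _, _ = _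
    rcases idx Y q i with h1 | ⟨l, hl, rfl⟩
    · rw [ph_old h1, e_old h1]
      exact hW.lab_e i hi (by omega)
    · rw [ph_new hl, e_new hl]
      exact hF.eB l hl
  · -- lc_lt
    intro k h1 h2
    show Y.lc k < Y.nl + q
    have := hW.lc_lt k h1 h2
    omega
  · -- cellS
    intro v hv hvi
    rw [hcell v hv]
    exact hW.cellS v hv hvi
  · -- I1
    intro v hv
    show kap _ _ ≤ pr _ (fun ω => LV G _ _ (law G Y.σ ω) v)
    by_cases hvF : ∃ l, l < q ∧ v ∈ F l
    · obtain ⟨l, hl, hvl⟩ := hvF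
      rw [cell_mem hA hl hvl, rk_new hl, D_new hA hl]
      refine (hκ.trans (hF.suc l hl v hvl)).trans (pr_mono2 fun ω h1 => ?_)
      refine lv_shrink h1 le_rfl ?_ (fun u h2 h3 => absurd h2 h3)
      intro u hu
      refine ⟨Or.inr (Ex_new hA hl hu), ?_⟩
      rw [D_new hA hl]
      intro h2
      rcases hu with h3 | ⟨l', h3, h4⟩
      · exact (hF.sub l hl h2).1 h3.1.1
      · exact hF.dis l' l (h3.trans hl) hl h3.ne u h4 h2
    · push Not at hvF
      rw [cell_not hvF, rk_old (Or.inl (hW.cell_lt v))]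
      refine (hW.I1 v hv).trans (pr_mono2 fun ω h1 => ?_)
      exact lv_shrink h1 (D_sub hA (Or.inl (hW.cell_lt v))) (E_old hA (hW.cell_lt v)).1 (E_old hA (hW.cell_lt v)).2
  · -- I3
    intro i hi v hv
    rcases idx Y q i with h1 | ⟨l, hl, rfl⟩
    · rw [C_old hA h1] at hv
      rw [s_old h1, e_old h1]
      exact hW.I3 i hi v hv
    · rw [C_new hA hl] at hv
      rw [s_new hl, e_new hl]
      exact hF.tm l hl v hv
  · -- lens
    intro i
    show LENS G Y.σ _ _
    rcases idx Y q i with h1 | ⟨l, hl, rfl⟩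
    · rw [s_old h1]
      by_cases h2 : i = Y.lc Y.np
      · rw [h2, D_par hA]
        exact hrest
      · rw [D_old hA h1 h2]
        exact hW.lens i
    · rw [s_new hl, D_new hA hl]
      exact hF.lens l hl
  · -- evd
    intro k' b' kd v w h
    have h' : if k' = Y.np ∧ b' = b then evn kd v w else Y.ev k' b' kd v w := h
    by_cases hn : k' = Y.np ∧ b' = b
    · rw [if_pos hn] at h'
      obtain ⟨rfl, rfl⟩ := hn
      exact ⟨hnp, le_rfl, hev kd v w h'⟩
    · rw [if_neg hn] at h'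
      exact hW.evd k' b' kd v w h'
  · -- own
    intro k h1 h2 h3 π hπ hp
    refine hW.own k h1 h2 h3 π hπ ?_
    intro b' kd v w hw
    refine hp b' kd v w ?_
    show if k = Y.np ∧ b' = b then evn kd v w else Y.ev k b' kd v w
    rw [if_neg fun h4 => h3 h4.1]
    exact hw
  · -- win
    intro k h1 h2 h3
    have h4 := hW.lc_lt k h1 h2
    show _ < G.t (Y.st k) ∧ _
    rw [show (Y.add Y.np b (Y.lc Y.np) (rnk r + 1) q F s e evn).lc k = Y.lc k from rfl, s_old (Or.inl h4),
      e_old (Or.inl h4)]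
    exact hW.win k h1 h2 h3
  · -- mv
    intro k h1 h2 h3
    have h2' : k + 1 ≤ Y.np := h2
    obtain ⟨h4, h5⟩ := hW.mv k h1 h2 h3
    exact ⟨hmv _ _ (hW.lc_lt k h1 (by omega)) (hW.lc_lt (k + 1) (by omega) h2') h4, h5⟩
  · -- wlk
    intro v hv i hi hvi
    show ∃ w ∈ Y.σ.S, G.inn w ∧ Y.rt (Y.phs w) = Y.rt _ ∧ Walk G (Low G rnk Y.σ.pi (rnk (Y.rt _))) v w
    rcases idx Y q i with h1 | ⟨l, hl, rfl⟩
    · rw [C_old hA h1] at hvi
      rw [ph_old h1]
      exact hW.wlk v hv i hi hvi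
    · rw [C_new hA hl] at hvi
      rw [ph_new hl, hr]
      obtain ⟨π, hπ, w, hwP, how, hbe⟩ := hpath l hl v hvi
      have hphs : Y.phs w = Y.np := hwP.2.2
      have hwlow : w ∉ Low G rnk Y.σ.pi (rnk r) := by
        have := hW.low w hwP.1 hwP.2.1
        rwa [hphs, hr] at this
      refine ⟨w, hwP.1, hwP.2.1, by rw [hphs, hr], ?_⟩
      refine walk_of_orb hπ hwlow (Or.inl rfl) (Or.inr (Or.inl rfl)) how ?_
      intro u hu1 hu2
      rcases hu2.eq_or_lt with h3 | h3
      · rw [G.t_inj h3]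
        exact hwlow
      · exact fun h4 => hbe u hu1 h3 (hlo u h4)

end pr

end Pool.Agent.W_a4f561_P2
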