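import Pool.Agent.W_a4f561_h1.Def

/-!
MP_a4f561_co, polylog (helper1's text, section 4): the invariant (I3) after the draw and the relabelling of the areas (helper2).
-/

set_option autoImplicit false

namespace Pool.Agent.W_a4f561_P2

open Pool.Agent.W_a4f561_h26 Pool.Agent.W_a4f561_P73 Pool.Agent.W_a4f561_P45 Pool.Agent.W_a4f561_h1
open Pool.Agent.W_a4f561_P25 (Tc Ar Area ArD)

variable {V : Type} {G : Bars V}

/-- Times of the vertices of an area: strictly inside of the phase. -/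
theorem area_t {π : V → V} (hπ : Ch G π) {z : V} {tl : ℕ} (hN : tl ≤ G.N) {u : V} (h : Area G π z tl u) :
    G.t z < G.b u ∧ G.t z < G.t u ∧ G.t u < tl := by
  rcases h with ⟨y, a, c, h⟩ | ⟨y, a, c, h⟩
  · obtain ⟨_, k1, k2, _⟩ := h.p0 hπ hN
    have h1 := h.2.1.1
    have h2 := h.2.2.1.2.1
    have h3 := G.bt u
    omega
  · obtain ⟨_, k1, k2, _⟩ := h.p0 (ch_mir.2 hπ) hN
    have h1 : G.t z < a := h.2.1.1
    have h2 : c ≤ tl := h.2.2.1.2.1
    have h3 := G.bt u
    have k1' : a < G.b u := k1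
    have k2' : G.t u < c := k2
    omega

theorem draw_cell_mem {X : MS V} {σ1 : St V} {B A : Set V} {z r u : V} (h : u ∈ A) :
    (X.draw σ1 B A z r).cell u = X.cell z := by
  unfold MS.draw
  simp only
  rw [if_pos h]

theorem draw_cell_not {X : MS V} {σ1 : St V} {B A : Set V} {z r u : V} (h : u ∉ A) :
    (X.draw σ1 B A z r).cell u = X.cell u := by
  unfold MS.draw
  simp only
  rw [if_neg h]

section pr

variable [Fintype V] [DecidableEq V]

/-- (I3) after the draw. -/
theorem draw_I3 {rnk : V → ℕ} {N k0 : ℕ} {X : MS V} {c : V} (hX : WI G rnk N k0 X c) {ω : V × Bool → Bool} {z e vl r : V}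
    {σ1 : St V} (h1 : Dr1 G X.σ (X.D (X.cell z)) ω z e vl σ1) (A : Set V)
    (hA : ∀ u ∈ A, Area G σ1.pi z (G.t vl) u) (B : Set V) :
    ∀ i, 1 ≤ i → ∀ v ∈ (X.draw σ1 B A z r).C i,
      (X.draw σ1 B A z r).s i < G.t v ∧ G.t v < (X.draw σ1 B A z r).e i := by
  intro i hi v hv
  show X.s i < G.t v ∧ G.t v < X.e i
  have hv' : Anc X.par i ((X.draw σ1 B A z r).cell v) := hv
  by_cases hvA : v ∈ A
  · rw [draw_cell_mem hvA] at hv'
    have hvl : vl ∈ X.D (X.cell z) := h1.vlB.2 vl h1.vlB.1 le_rfl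
    have hvlS : vl ∉ X.σ.S := hvl.1
    have hvli : G.inn vl := by
      constructor
      · intro h
        rw [h] at hvlS
        exact hvlS hX.inv.bot_mem
      · intro h
        rw [h] at hvlS
        exact hvlS hX.inv.top_mem
    have hN : G.t vl ≤ G.N := (G.t_in vl hvli.1 hvli.2).le
    have h2 := area_t h1.inv.ch hN (hA v hvA)
    have h3 := hX.I3 i hi z hv'
    have h4 := hX.I3 i hi vl (by
      show Anc X.par i (X.cell vl)
      rw [hvl.2]
      exact hv')
    omega
  · rw [draw_cell_not hvA] at hv'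
    exact hX.I3 i hi v hv'

end pr

end Pool.Agent.W_a4f561_P2
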